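import Pool.Agent.Q122.MB.Stm

set_option autoImplicit false

/-!
Project MB (helper122), job CH: sums of a real character over an interval and a residue class.
-/

namespace Pool.Agent.Q65.MB.CH

open Finset Filter Topology MeasureTheory Pool.Agent.H306R2.RZ Pool.Agent.H306R2.RG
open Pool.Agent.Q122.FM Pool.Agent.Q122.MB

/-- a value `-1` of the Jacobi symbol -/
theorem exists_neg (m : ℕ) (hm : Odd m) (hs : ¬ IsSquare m) : ∃ t : ℤ, jacobiSym t m = -1 := by
  have hm0 : m ≠ 0 := by
    rintro rfl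
    simp at hm
  obtain ⟨a, b, hab, ha⟩ := Nat.sq_mul_squarefree m
  have ha1 : a ≠ 1 := by
    rintro rfl
    exact hs ⟨b, by rw [← hab]; ring⟩
  obtain ⟨p, hp, hpa⟩ := Nat.exists_prime_and_dvd ha1
  have hpm : p ∣ m := by
    rw [← hab]
    exact Dvd.dvd.mul_left hpa _
  have hfa : a.factorization p = 1 :=
    Nat.le_antisymm (ha.natFactorization_le_one p)
      ((hp.dvd_iff_one_le_factorization ha.ne_zero).1 hpa)
  have hb0 : b ≠ 0 := by
    rintro rfl
    apply hm0
    rw [← hab]
    simp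
  have hfm : m.factorization p = 2 * b.factorization p + 1 := by
    rw [← hab, Nat.factorization_mul (by positivity) ha.ne_zero, Nat.factorization_pow]
    simp [hfa]
  have hp2 : p ≠ 2 := by
    rintro rfl
    have := Odd.of_dvd_nat hm hpm
    exact absurd this (by decide)
  have : Fact p.Prime := ⟨hp⟩
  obtain ⟨x, hx⟩ := FiniteField.exists_nonsquare (F := ZMod p) (by
    rw [ZMod.ringChar_zmod_n]
    exact hp2)
  set M : ℕ := m / p ^ (m.factorization p) with hM
  have hcop : Nat.Coprime p M := Nat.coprime_ordCompl hp hm0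
  obtain ⟨t, ht1, ht2⟩ := Nat.chineseRemainder hcop x.val 1
  have hmM : p ^ (m.factorization p) * M = m := Nat.ordProj_mul_ordCompl_eq_self m p
  have hM0 : M ≠ 0 := by
    intro h
    rw [h, mul_zero] at hmM
    exact hm0 hmM.symm
  refine ⟨(t : ℤ), ?_⟩
  rw [← hmM, jacobiSym.mul_right' _ (pow_ne_zero _ hp.ne_zero) hM0, jacobiSym.pow_right]
  have h1 : jacobiSym (t : ℤ) p = -1 := by
    rw [← jacobiSym.legendreSym.to_jacobiSym, legendreSym.eq_neg_one_iff]
    have : ((t : ℤ) : ZMod p) = x := by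
      have h := (ZMod.natCast_eq_natCast_iff _ _ _).2 ht1
      rw [ZMod.natCast_zmod_val] at h
      push_cast
      exact h
    rw [this]
    exact hx
  have h2 : jacobiSym (t : ℤ) M = 1 := by
    have h3 : (t : ℤ) % (M : ℤ) = (1 : ℤ) % (M : ℤ) := by
      have h4 : t % M = 1 % M := ht2
      exact_mod_cast h4
    rw [jacobiSym.mod_left' h3, jacobiSym.one_left]
  rw [h1, h2, hfm, pow_succ, pow_mul]
  norm_num

/-- the complete sum vanishes -/
theorem full_sum (m : ℕ) (hm : Odd m) (hs : ¬ IsSquare m) (a0 b0 : ℤ) (ha : IsCoprime a0 (m : ℤ)) :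
    ∑ i ∈ range m, jacobiSym (a0 * i + b0) m = 0 := by
  have hm0 : m ≠ 0 := by
    rintro rfl
    simp at hm
  have : NeZero m := ⟨hm0⟩
  obtain ⟨t, ht⟩ := exists_neg m hm hs
  let F : ZMod m → ℤ := fun x => jacobiSym (x.val : ℤ) m
  have hF : ∀ n : ℤ, jacobiSym n m = F (n : ZMod m) := by
    intro n
    show jacobiSym n m = jacobiSym (((n : ZMod m).val : ℕ) : ℤ) m
    rw [ZMod.val_intCast, ← jacobiSym.mod_left]
  have hmul : ∀ (n : ℤ) (x : ZMod m), F ((n : ZMod m) * x) = jacobiSym n m * F x := by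
    intro n x
    have h1 : (n : ZMod m) * x = ((n * (x.val : ℤ) : ℤ) : ZMod m) := by
      push_cast
      rw [ZMod.natCast_zmod_val]
    rw [h1, ← hF, jacobiSym.mul_left]
  have hunit : ∀ n : ℤ, IsCoprime n (m : ℤ) → IsUnit (n : ZMod m) := by
    intro n hn
    exact (ZMod.coe_int_isUnit_iff_isCoprime n m).2 hn.symm
  have htc : IsCoprime t (m : ℤ) := by
    rw [Int.isCoprime_iff_gcd_eq_one]
    by_contra hne
    have := (jacobiSym.eq_zero_iff_not_coprime (a := t) (b := m)).2 hne
    rw [ht] at this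
    norm_num at this
  obtain ⟨u, hu⟩ := hunit t htc
  obtain ⟨v, hv⟩ := hunit a0 ha
  have hzero : ∑ x : ZMod m, F x = 0 := by
    have h1 : ∑ x : ZMod m, F ((t : ZMod m) * x) = ∑ x : ZMod m, F x := by
      rw [← hu]
      exact (Equiv.sum_comp (Units.mulLeft u) F)
    have h2 : ∑ x : ZMod m, F ((t : ZMod m) * x) = - ∑ x : ZMod m, F x := by
      rw [← Finset.sum_neg_distrib]
      apply Finset.sum_congr rfl
      intro x _
      rw [hmul, ht]
      ring
    linarith
  have h3 : ∑ x : ZMod m, F ((a0 : ZMod m) * x + (b0 : ZMod m)) = ∑ x : ZMod m, F x := by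
    rw [← hv]
    exact (Equiv.sum_comp ((Units.mulLeft v).trans (Equiv.addRight (b0 : ZMod m))) F)
  rw [← hzero, ← h3]
  refine Finset.sum_nbij' (fun i : ℕ => (i : ZMod m)) (fun x : ZMod m => x.val) ?_ ?_ ?_ ?_ ?_
  · intro i _
    exact Finset.mem_univ _
  · intro x _
    exact Finset.mem_range.2 (ZMod.val_lt x)
  · intro i hi
    exact ZMod.val_natCast_of_lt (Finset.mem_range.1 hi)
  · intro x _
    exact ZMod.natCast_zmod_val x
  · intro i _
    rw [hF]
    push_cast
    rfl

theorem js_abs_le (k : ℤ) (n : ℕ) : |js k n| ≤ 1 := by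
  unfold js
  rcases jacobiSym.trichotomy k n with h | h | h <;> rw [h] <;> norm_num

theorem incomplete (F : ℕ → ℝ) (m : ℕ) (hm : 0 < m) (hF : ∀ j, |F j| ≤ 1)
    (h0 : ∀ j0 : ℕ, ∑ j ∈ Ico j0 (j0 + m), F j = 0) :
    ∀ L j0 : ℕ, |∑ j ∈ Ico j0 (j0 + L), F j| ≤ m := by
  intro L
  induction L using Nat.strong_induction_on with
  | _ L ih =>
    intro j0
    rcases Nat.lt_or_ge L m with h | h
    · calc |∑ j ∈ Ico j0 (j0 + L), F j| ≤ ∑ j ∈ Ico j0 (j0 + L), |F j| :=
            Finset.abs_sum_le_sum_abs _ _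
        _ ≤ ∑ j ∈ Ico j0 (j0 + L), (1 : ℝ) := Finset.sum_le_sum (fun j _ => hF j)
        _ = L := by simp
        _ ≤ m := by exact_mod_cast h.le
    · have h1 := Finset.sum_Ico_consecutive F (show j0 ≤ j0 + m by omega)
        (show j0 + m ≤ j0 + L by omega)
      rw [h0 j0, zero_add] at h1
      rw [← h1]
      have h2 := ih (L - m) (by omega) (j0 + m)
      rw [show j0 + m + (L - m) = j0 + L by omega] at h2
      exact h2

theorem t_CH : S_CH := by
  intro e he c hc hco m hm hs y h
  have hm0 : 0 < m := hm.pos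
  have hcop : IsCoprime (8 * e) (m : ℤ) := by
    have h2 : IsCoprime (2 : ℤ) (m : ℤ) := by
      have : Nat.Coprime 2 m := Nat.coprime_two_left.2 hm
      exact_mod_cast Nat.isCoprime_iff_coprime.2 this
    have h8 : IsCoprime (8 : ℤ) (m : ℤ) := by
      have := h2.pow_left (m := 3)
      norm_num at this
      exact this
    have hee : IsCoprime e (m : ℤ) := by
      rcases he with rfl | rfl | rfl | rfl
      · exact isCoprime_one_left
      · exact isCoprime_one_left.neg_left
      · exact h2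
      · exact h2.neg_left
    exact h8.mul_left hee
  set F : ℕ → ℝ := fun j => js (e * ((8 * j + c : ℕ) : ℤ)) m with hFd
  have hb := incomplete F m hm0 (fun j => js_abs_le _ _) (by
    intro j0
    rw [Finset.sum_Ico_eq_sum_range, Nat.add_sub_cancel_left]
    have h1 := full_sum m hm hs (8 * e) (e * (8 * (j0 : ℤ) + c)) hcop
    have h2 : ∑ i ∈ range m, F (j0 + i) =
        ((∑ i ∈ range m, jacobiSym (8 * e * (i : ℤ) + e * (8 * (j0 : ℤ) + c)) m : ℤ) : ℝ) := by
      push_cast
      apply Finset.sum_congr rfl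
      intro i _
      show ((jacobiSym (e * ((8 * (j0 + i) + c : ℕ) : ℤ)) m : ℤ) : ℝ) = _
      have h3 : e * ((8 * (j0 + i) + c : ℕ) : ℤ) = 8 * e * (i : ℤ) + e * (8 * (j0 : ℤ) + c) := by
        push_cast
        ring
      rw [h3]
    rw [h2, h1]
    simp)
  have h4 : ∑ d ∈ (Ioc y (y + h)).filter (fun d => d % 8 = c), js (e * (d : ℤ)) m =
      ∑ j ∈ Ico ((y + 8 - c) / 8) ((y + 8 - c) / 8 + ((y + h + 8 - c) / 8 - (y + 8 - c) / 8)),
        F j := by
    refine Finset.sum_nbij' (fun d => d / 8) (fun j => 8 * j + c) ?_ ?_ ?_ ?_ ?_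
    · intro d hd
      simp only [mem_filter, mem_Ioc, mem_Ico] at hd ⊢
      omega
    · intro j hj
      simp only [mem_filter, mem_Ioc, mem_Ico] at hj ⊢
      omega
    · intro d hd
      simp only [mem_filter, mem_Ioc] at hd
      show 8 * (d / 8) + c = d
      omega
    · intro j _
      show (8 * j + c) / 8 = j
      omega
    · intro d hd
      simp only [mem_filter, mem_Ioc] at hd
      show js (e * (d : ℤ)) m = js (e * ((8 * (d / 8) + c : ℕ) : ℤ)) m
      rw [show 8 * (d / 8) + c = d by omega]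
  rw [h4]
  refine (hb _ _).trans ?_
  have : (0 : ℝ) ≤ m := by positivity
  linarith

end Pool.Agent.Q65.MB.CH
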