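import Pool.Agent.Q122.MB.Stm

set_option autoImplicit false

/-!
Project MB (helper122), job DP: the powers of the resonator.
-/

namespace Pool.Agent.Q65.MB.DP

open Finset Filter Topology MeasureTheory Pool.Agent.H306R2.RZ Pool.Agent.H306R2.RG
open Pool.Agent.Q122.FM Pool.Agent.Q122.MB

theorem gg_nonneg (j : ℕ) : 0 ≤ Pool.Agent.Q122.MB.gg j := by
  unfold Pool.Agent.Q122.MB.gg
  split_ifs <;> norm_num

theorem gg_le (j : ℕ) : Pool.Agent.Q122.MB.gg j ≤ 1 := by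
  unfold Pool.Agent.Q122.MB.gg
  split_ifs <;> norm_num

theorem g_nonneg (n : ℕ) : 0 ≤ g n := Finset.prod_nonneg (fun _ _ => gg_nonneg _)

theorem g_le (n : ℕ) : g n ≤ 1 := Finset.prod_le_one (fun _ _ => gg_nonneg _) (fun _ _ => gg_le _)

theorem GN_apply (N0 n : ℕ) :
    GN N0 n = if 1 ≤ n ∧ n ≤ N0 ∧ Odd n then g n / Real.sqrt n else 0 := rfl

theorem GN_nonneg (N0 n : ℕ) : 0 ≤ GN N0 n := by
  rw [GN_apply]
  split_ifs
  · exact div_nonneg (g_nonneg n) (Real.sqrt_nonneg _)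
  · exact le_refl _

theorem GN_le (N0 n : ℕ) : GN N0 n ≤ 1 := by
  rw [GN_apply]
  split_ifs with h
  · have h1 : (1 : ℝ) ≤ Real.sqrt n := by
      rw [Real.one_le_sqrt]
      exact_mod_cast h.1
    rw [div_le_one (by linarith)]
    exact (g_le n).trans h1
  · norm_num

theorem GN_supp (N0 n : ℕ) (h : GN N0 n ≠ 0) : 1 ≤ n ∧ n ≤ N0 ∧ Odd n := by
  rw [GN_apply] at h
  by_contra hc
  rw [if_neg hc] at h
  exact h rfl

theorem conv_nonneg (u v : ArithmeticFunction ℝ) (hu : ∀ n, 0 ≤ u n) (hv : ∀ n, 0 ≤ v n) (m : ℕ) :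
    0 ≤ (u * v) m := by
  rw [ArithmeticFunction.mul_apply]
  exact Finset.sum_nonneg (fun x _ => mul_nonneg (hu _) (hv _))

theorem conv_supp (u v : ArithmeticFunction ℝ) (U V : ℕ)
    (hu : ∀ n, u n ≠ 0 → 1 ≤ n ∧ n ≤ U ∧ Odd n) (hv : ∀ n, v n ≠ 0 → 1 ≤ n ∧ n ≤ V ∧ Odd n) (m : ℕ)
    (h : (u * v) m ≠ 0) : 1 ≤ m ∧ m ≤ U * V ∧ Odd m := by
  rw [ArithmeticFunction.mul_apply] at h
  obtain ⟨x, hx, hx0⟩ := Finset.exists_ne_zero_of_sum_ne_zero h
  rw [Nat.mem_divisorsAntidiagonal] at hx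
  obtain ⟨a1, a2, a3⟩ := hu _ (left_ne_zero_of_mul hx0)
  obtain ⟨b1, b2, b3⟩ := hv _ (right_ne_zero_of_mul hx0)
  rw [← hx.1]
  exact ⟨Nat.mul_pos a1 b1, Nat.mul_le_mul a2 b2, a3.mul b3⟩

theorem conv_sum (u v : ArithmeticFunction ℝ) (U V : ℕ)
    (hu : ∀ n, u n ≠ 0 → 1 ≤ n ∧ n ≤ U ∧ Odd n) (hv : ∀ n, v n ≠ 0 → 1 ≤ n ∧ n ≤ V ∧ Odd n)
    (F : ℕ → ℝ) (hF : ∀ a b : ℕ, a ≠ 0 → b ≠ 0 → F (a * b) = F a * F b) :
    ∑ m ∈ Icc 1 (U * V), (u * v) m * F m =
      (∑ a ∈ Icc 1 U, u a * F a) * ∑ b ∈ Icc 1 V, v b * F b := by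
  have h1 : ∀ m ∈ Icc 1 (U * V), (u * v) m * F m =
      ∑ x ∈ (Icc 1 U ×ˢ Icc 1 V).filter (fun x => x.1 * x.2 = m),
        (u x.1 * F x.1) * (v x.2 * F x.2) := by
    intro m hm
    rw [Finset.mem_Icc] at hm
    rw [ArithmeticFunction.mul_apply, Finset.sum_mul]
    symm
    have hsub : (Icc 1 U ×ˢ Icc 1 V).filter (fun x => x.1 * x.2 = m) ⊆
        m.divisorsAntidiagonal := by
      intro x hx
      rw [Finset.mem_filter] at hx
      rw [Nat.mem_divisorsAntidiagonal]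
      exact ⟨hx.2, by omega⟩
    rw [Finset.sum_subset hsub]
    · apply Finset.sum_congr rfl
      intro x hx
      rw [Nat.mem_divisorsAntidiagonal] at hx
      have e1 : x.1 ≠ 0 := by
        intro h0
        rw [h0, zero_mul] at hx
        exact hx.2 hx.1.symm
      have e2 : x.2 ≠ 0 := by
        intro h0
        rw [h0, mul_zero] at hx
        exact hx.2 hx.1.symm
      rw [← hx.1, hF _ _ e1 e2]
      ring
    · intro x hx hnot
      rw [Nat.mem_divisorsAntidiagonal] at hx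
      by_contra hne
      apply hnot
      obtain ⟨a1, a2, a3⟩ := hu x.1 (fun h0 => hne (by rw [h0]; ring))
      obtain ⟨b1, b2, b3⟩ := hv x.2 (fun h0 => hne (by rw [h0]; ring))
      rw [Finset.mem_filter, Finset.mem_product, Finset.mem_Icc, Finset.mem_Icc]
      exact ⟨⟨⟨a1, a2⟩, b1, b2⟩, hx.1⟩
  rw [Finset.sum_congr rfl h1, Finset.sum_fiberwise_of_maps_to, Finset.sum_product,
    Finset.sum_mul_sum]
  intro x hx
  rw [Finset.mem_product, Finset.mem_Icc, Finset.mem_Icc] at hx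
  rw [Finset.mem_Icc]
  exact ⟨Nat.mul_pos hx.1.1 hx.2.1, Nat.mul_le_mul hx.1.2 hx.2.2⟩

theorem Gp_nonneg (N0 j m : ℕ) : 0 ≤ Gp N0 j m := by
  unfold Gp
  induction j generalizing m with
  | zero =>
    rw [pow_zero, ArithmeticFunction.one_apply]
    split_ifs <;> norm_num
  | succ j ih =>
    rw [pow_succ]
    exact conv_nonneg _ _ (fun n => ih n) (fun n => GN_nonneg N0 n) m

theorem Gp_supp (N0 j m : ℕ) (h : Gp N0 j m ≠ 0) : 1 ≤ m ∧ m ≤ N0 ^ j ∧ Odd m := by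
  unfold Gp at h
  induction j generalizing m with
  | zero =>
    rw [pow_zero, ArithmeticFunction.one_apply] at h
    by_cases hm : m = 1
    · subst hm
      simp
    · rw [if_neg hm] at h
      exact absurd rfl h
  | succ j ih =>
    rw [pow_succ] at h
    rw [pow_succ]
    exact conv_supp _ _ _ _ (fun n hn => ih n hn) (fun n hn => GN_supp N0 n hn) m h

theorem Gp_sum (N0 j : ℕ) (F : ℕ → ℝ) (h1 : F 1 = 1)
    (hF : ∀ a b : ℕ, a ≠ 0 → b ≠ 0 → F (a * b) = F a * F b) :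
    ∑ m ∈ Icc 1 (N0 ^ j), Gp N0 j m * F m = (∑ a ∈ Icc 1 N0, GN N0 a * F a) ^ j := by
  induction j with
  | zero => simp [Gp, h1]
  | succ j ih =>
    have h := conv_sum (GN N0 ^ j) (GN N0) (N0 ^ j) N0 (fun n hn => Gp_supp N0 j n hn)
      (fun n hn => GN_supp N0 n hn) F hF
    rw [pow_succ (∑ a ∈ Icc 1 N0, GN N0 a * F a) j, ← ih]
    unfold Gp
    rw [pow_succ (GN N0) j, pow_succ N0 j]
    exact h

theorem js_mul (e : ℤ) (n b : ℕ) (hn : n ≠ 0) (hb : b ≠ 0) : js e (n * b) = js e n * js e b := by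
  unfold js
  rw [jacobiSym.mul_right' e hn hb]
  push_cast
  ring

theorem t_DP : S_DP := by
  intro N0 j hN
  refine ⟨?_, Gp_nonneg N0 j, Gp_supp N0 j, ?_⟩
  · intro e d
    have h := Gp_sum N0 j (fun n => js (e * (d : ℤ)) n) (by simp [js])
      (fun a b ha hb => js_mul _ a b ha hb)
    have h1 : DD e N0 d = ∑ a ∈ Icc 1 N0, GN N0 a * js (e * (d : ℤ)) a := by
      unfold DD
      rw [Finset.sum_filter]
      apply Finset.sum_congr rfl
      intro a ha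
      rw [Finset.mem_Icc] at ha
      rw [GN_apply]
      by_cases ho : Odd a
      · rw [if_pos ho, if_pos ⟨ha.1, ha.2, ho⟩]
      · rw [if_neg ho, if_neg (fun h => ho h.2.2), zero_mul]
    rw [h1, ← h, Finset.sum_filter]
    apply Finset.sum_congr rfl
    intro m _
    by_cases ho : Odd m
    · rw [if_pos ho]
    · rw [if_neg ho]
      have : Gp N0 j m = 0 := by
        by_contra hne
        exact ho (Gp_supp N0 j m hne).2.2
      rw [this, zero_mul]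
  · have h := Gp_sum N0 j (fun _ => 1) rfl (fun a b _ _ => by ring)
    simp only [mul_one] at h
    rw [h]
    apply pow_le_pow_left₀ (Finset.sum_nonneg (fun a _ => GN_nonneg N0 a))
    calc ∑ a ∈ Icc 1 N0, GN N0 a ≤ ∑ a ∈ Icc 1 N0, (1 : ℝ) :=
          Finset.sum_le_sum (fun a _ => GN_le N0 a)
      _ = N0 := by simp

end Pool.Agent.Q65.MB.DP
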