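import Pool.Agent.Q122.MB.Stm
import Pool.Agent.Q275.FM.KER
import Pool.Agent.Q275.FM.IGF

set_option autoImplicit false

/-!
Project MB (helper122), job KBI: the kernel of the twisted sums.
-/

namespace Pool.Agent.Q65.MB.KBI

open Finset Filter Topology MeasureTheory Pool.Agent.H306R2.RZ Pool.Agent.H306R2.RG
open Pool.Agent.Q122.FM Pool.Agent.Q122.MB

theorem kap_anti (x y : ℝ) (hx : 0 < x) (hxy : x ≤ y) : kap y ≤ kap x := by
  unfold kap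
  have h1 : y ^ (-(1 / 8) : ℝ) ≤ x ^ (-(1 / 8) : ℝ) :=
    Real.rpow_le_rpow_of_nonpos hx hxy (by norm_num)
  have h2 : Real.exp (-y) ≤ Real.exp (-x) := Real.exp_le_exp.2 (by linarith)
  exact mul_le_mul h1 h2 (Real.exp_pos _).le (Real.rpow_nonneg hx.le _)

/-- one term of the kernel -/
theorem term_bd (a : ℕ) (ha : a = 0 ∨ a = 1) (n : ℝ) (hn : 0 < n) (w : ℝ) (hw : 0 < w) :
    0 ≤ n ^ a * w ^ ((a : ℝ) / 2) * Real.exp (-(Real.pi * n ^ 2 * w)) ∧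
    n ^ a * w ^ ((a : ℝ) / 2) * Real.exp (-(Real.pi * n ^ 2 * w)) ≤ kap (n ^ 2 * w) := by
  have h1 : n ^ a * w ^ ((a : ℝ) / 2) = (n ^ 2 * w) ^ ((a : ℝ) / 2) := by
    rw [Real.mul_rpow (by positivity) hw.le, ← Real.rpow_natCast n 2, ← Real.rpow_mul hn.le,
      ← Real.rpow_natCast n a]
    congr 2
    push_cast
    ring
  have h2 : Real.pi * n ^ 2 * w = Real.pi * (n ^ 2 * w) := by ring
  refine ⟨by positivity, ?_⟩
  rw [h1, h2]
  exact Pool.Agent.Q275.FM.pow_eight a ha (n ^ 2 * w) (by positivity)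

theorem bound (a : ℕ) (ha : a = 0 ∨ a = 1) (β : ℕ → ℝ) (hβ : ∀ b, 0 ≤ β b) (B N : ℕ)
    (m : ℕ) (w : ℝ) (hm : 1 ≤ m) (hw : 0 < w) :
    |KB a β B N w m| ≤ (∑ b ∈ Icc 1 B, β b) * kap ((m : ℝ) ^ 2 * w) := by
  have hk : 0 ≤ kap ((m : ℝ) ^ 2 * w) := by
    unfold kap
    positivity
  unfold KB
  have hterm : ∀ b ∈ (Icc 1 B).filter (fun b => b ∣ m ∧ m / b ≤ N),
      |β b * (((m / b : ℕ) : ℝ) ^ a * ((B : ℝ) ^ 2 * w) ^ ((a : ℝ) / 2) *
      Real.exp (-(Real.pi * ((m / b : ℕ) : ℝ) ^ 2 * ((B : ℝ) ^ 2 * w))))| ≤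
      β b * kap ((m : ℝ) ^ 2 * w) := by
    intro b hb
    simp only [mem_filter, mem_Icc] at hb
    obtain ⟨⟨hb1, hb2⟩, hb3, hb4⟩ := hb
    have hB : (0 : ℝ) < B := by
      have : 0 < B := by omega
      exact_mod_cast this
    have hn : 0 < m / b := Nat.div_pos (Nat.le_of_dvd hm hb3) hb1
    have hnr : (0 : ℝ) < ((m / b : ℕ) : ℝ) := by exact_mod_cast hn
    obtain ⟨h1, h2⟩ := term_bd a ha ((m / b : ℕ) : ℝ) hnr ((B : ℝ) ^ 2 * w) (by positivity)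
    rw [abs_mul, abs_of_nonneg (hβ b), abs_of_nonneg h1]
    apply mul_le_mul_of_nonneg_left _ (hβ b)
    refine h2.trans (kap_anti _ _ (by positivity) ?_)
    have h3 : (m : ℝ) ≤ ((m / b : ℕ) : ℝ) * B := by
      have h4 : m ≤ m / b * B := by
        calc m = m / b * b := (Nat.div_mul_cancel hb3).symm
          _ ≤ m / b * B := Nat.mul_le_mul_left _ hb2
      exact_mod_cast h4
    have h5 : (m : ℝ) ^ 2 ≤ (((m / b : ℕ) : ℝ) * B) ^ 2 :=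
      pow_le_pow_left₀ (by positivity) h3 2
    calc (m : ℝ) ^ 2 * w ≤ (((m / b : ℕ) : ℝ) * B) ^ 2 * w := by gcongr
      _ = _ := by ring
  calc _ ≤ ∑ b ∈ (Icc 1 B).filter (fun b => b ∣ m ∧ m / b ≤ N),
      |β b * (((m / b : ℕ) : ℝ) ^ a * ((B : ℝ) ^ 2 * w) ^ ((a : ℝ) / 2) *
      Real.exp (-(Real.pi * ((m / b : ℕ) : ℝ) ^ 2 * ((B : ℝ) ^ 2 * w))))| :=
        Finset.abs_sum_le_sum_abs _ _
    _ ≤ ∑ b ∈ (Icc 1 B).filter (fun b => b ∣ m ∧ m / b ≤ N), β b * kap ((m : ℝ) ^ 2 * w) :=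
        Finset.sum_le_sum hterm
    _ ≤ ∑ b ∈ Icc 1 B, β b * kap ((m : ℝ) ^ 2 * w) :=
        Finset.sum_le_sum_of_subset_of_nonneg (Finset.filter_subset _ _)
          (fun b _ _ => mul_nonneg (hβ b) hk)
    _ = _ := by rw [Finset.sum_mul]

/-- the substitution -/
theorem subst (igf : S_IGF) (a : ℕ) (ha : a = 0 ∨ a = 1) (B : ℕ) (hB : 1 ≤ B) (n : ℝ) (hn : 1 ≤ n)
    (z : ℝ) (hz : 0 < z) :
    IntegrableOn (fun w : ℝ => w ^ (-(3 / 4) : ℝ) * (n ^ a * ((B : ℝ) ^ 2 * w) ^ ((a : ℝ) / 2) *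
      Real.exp (-(Real.pi * n ^ 2 * ((B : ℝ) ^ 2 * w))))) (Set.Ioi (z / (B : ℝ) ^ 2)) ∧
    1 / Real.sqrt n * IG a (n ^ 2 * z) = Real.sqrt B * ∫ w in Set.Ioi (z / (B : ℝ) ^ 2),
      w ^ (-(3 / 4) : ℝ) * (n ^ a * ((B : ℝ) ^ 2 * w) ^ ((a : ℝ) / 2) *
      Real.exp (-(Real.pi * n ^ 2 * ((B : ℝ) ^ 2 * w)))) := by
  obtain ⟨h1, h2⟩ := igf a ha n z hn hz
  have hB0 : (0 : ℝ) < B := by exact_mod_cast hB
  have hB2 : (0 : ℝ) < (B : ℝ) ^ 2 := by positivity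
  set f : ℝ → ℝ := fun w : ℝ => w ^ (-(3 / 4) : ℝ) * (n ^ a * w ^ ((a : ℝ) / 2) *
    Real.exp (-(Real.pi * n ^ 2 * w))) with hf
  have hz2 : (B : ℝ) ^ 2 * (z / (B : ℝ) ^ 2) = z := by field_simp
  have h3 : IntegrableOn (fun w => f ((B : ℝ) ^ 2 * w)) (Set.Ioi (z / (B : ℝ) ^ 2)) := by
    rw [integrableOn_Ioi_comp_mul_left_iff f _ hB2, hz2]
    exact h1
  have h4 : (B : ℝ) ^ 2 * ∫ w in Set.Ioi (z / (B : ℝ) ^ 2), f ((B : ℝ) ^ 2 * w) =
      ∫ w in Set.Ioi z, f w := by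
    have := integral_comp_mul_left_Ioi' f (z / (B : ℝ) ^ 2) hB2
    rw [hz2, smul_eq_mul] at this
    exact this
  have hpt : ∀ w ∈ Set.Ioi (z / (B : ℝ) ^ 2), w ^ (-(3 / 4) : ℝ) *
      (n ^ a * ((B : ℝ) ^ 2 * w) ^ ((a : ℝ) / 2) *
      Real.exp (-(Real.pi * n ^ 2 * ((B : ℝ) ^ 2 * w)))) =
      (B : ℝ) ^ (3 / 2 : ℝ) * f ((B : ℝ) ^ 2 * w) := by
    intro w hw
    have hw0 : 0 < w := lt_trans (by positivity) hw
    show _ = (B : ℝ) ^ (3 / 2 : ℝ) * (((B : ℝ) ^ 2 * w) ^ (-(3 / 4) : ℝ) *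
      (n ^ a * ((B : ℝ) ^ 2 * w) ^ ((a : ℝ) / 2) *
      Real.exp (-(Real.pi * n ^ 2 * ((B : ℝ) ^ 2 * w)))))
    have h5 : ((B : ℝ) ^ 2 * w) ^ (-(3 / 4) : ℝ) = (B : ℝ) ^ (-(3 / 2) : ℝ) * w ^ (-(3 / 4) : ℝ) := by
      rw [Real.mul_rpow hB2.le hw0.le, ← Real.rpow_natCast (B : ℝ) 2, ← Real.rpow_mul hB0.le]
      norm_num
    have h6 : (B : ℝ) ^ (3 / 2 : ℝ) * (B : ℝ) ^ (-(3 / 2) : ℝ) = 1 := by
      rw [← Real.rpow_add hB0]
      norm_num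
    rw [h5]
    calc _ = 1 * (w ^ (-(3 / 4) : ℝ) * (n ^ a * ((B : ℝ) ^ 2 * w) ^ ((a : ℝ) / 2) *
      Real.exp (-(Real.pi * n ^ 2 * ((B : ℝ) ^ 2 * w))))) := by rw [one_mul]
      _ = _ := by rw [← h6]; ring
  refine ⟨?_, ?_⟩
  · have h8 : IntegrableOn (fun w => (B : ℝ) ^ (3 / 2 : ℝ) * f ((B : ℝ) ^ 2 * w))
        (Set.Ioi (z / (B : ℝ) ^ 2)) := h3.const_mul ((B : ℝ) ^ (3 / 2 : ℝ))
    exact h8.congr_fun (fun w hw => (hpt w hw).symm) measurableSet_Ioi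
  · rw [setIntegral_congr_fun measurableSet_Ioi hpt, integral_const_mul, h2]
    have h7 : Real.sqrt B * (B : ℝ) ^ (3 / 2 : ℝ) = (B : ℝ) ^ 2 := by
      rw [Real.sqrt_eq_rpow, ← Real.rpow_add hB0, ← Real.rpow_natCast (B : ℝ) 2]
      norm_num
    rw [← mul_assoc, h7, h4]

theorem t_KBI : S_KBI := by
  have igf : S_IGF := Pool.Agent.Q275.FM.t_IGF
  refine ⟨⟨1, le_refl _, ?_⟩, ?_⟩
  · intro a ha β hβ B N _ m w hm hw
    rw [one_mul]
    exact bound a ha β hβ B N m w hm hw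
  · intro a ha e β B N d z hB hz
    have hm : ∀ m ∈ (Icc 1 (N * B)).filter (fun m => Odd m ∧ ¬ IsSquare m),
        ∀ b ∈ (Icc 1 B).filter (fun b => b ∣ m ∧ m / b ≤ N), (1 : ℝ) ≤ ((m / b : ℕ) : ℝ) := by
      intro m hm b hb
      simp only [mem_filter, mem_Icc] at hm hb
      have : 1 ≤ m / b := Nat.div_pos (Nat.le_of_dvd hm.1.1 hb.2.1) hb.1.1
      exact_mod_cast this
    have hfun : ∀ w : ℝ, w ^ (-(3 / 4) : ℝ) * N1 e (KB a β B N w) (N * B) d =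
        ∑ m ∈ (Icc 1 (N * B)).filter (fun m => Odd m ∧ ¬ IsSquare m),
          ∑ b ∈ (Icc 1 B).filter (fun b => b ∣ m ∧ m / b ≤ N),
          (js (e * (d : ℤ)) m * β b) * (w ^ (-(3 / 4) : ℝ) *
            (((m / b : ℕ) : ℝ) ^ a * ((B : ℝ) ^ 2 * w) ^ ((a : ℝ) / 2) *
              Real.exp (-(Real.pi * ((m / b : ℕ) : ℝ) ^ 2 * ((B : ℝ) ^ 2 * w))))) := by
      intro w
      unfold N1 KB
      rw [Finset.mul_sum]
      apply Finset.sum_congr rfl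
      intro m _
      rw [Finset.mul_sum, Finset.mul_sum]
      apply Finset.sum_congr rfl
      intro b _
      ring
    simp only [hfun]
    constructor
    · apply integrable_finsetSum
      intro m hm1
      apply integrable_finsetSum
      intro b hb
      exact (subst igf a ha B hB _ (hm m hm1 b hb) z hz).1.const_mul _
    · rw [integral_finsetSum]
      · unfold EBN cB
        rw [Finset.mul_sum]
        apply Finset.sum_congr rfl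
        intro m hm1
        rw [integral_finsetSum]
        · rw [Finset.mul_sum, Finset.mul_sum]
          apply Finset.sum_congr rfl
          intro b hb
          rw [integral_const_mul, (subst igf a ha B hB _ (hm m hm1 b hb) z hz).2]
          ring
        · intro b hb
          exact (subst igf a ha B hB _ (hm m hm1 b hb) z hz).1.const_mul _
      · intro m hm1
        apply integrable_finsetSum
        intro b hb
        exact (subst igf a ha B hB _ (hm m hm1 b hb) z hz).1.const_mul _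

end Pool.Agent.Q65.MB.KBI
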