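import Pool.Agent.Q122.MB.Stm

set_option autoImplicit false

/-!
Project MB (helper122), job SPL: the resonator times the truncated `L`-value.
-/

namespace Pool.Agent.Q65.MB.SPL

open Finset Filter Topology MeasureTheory Pool.Agent.H306R2.RZ Pool.Agent.H306R2.RG
open Pool.Agent.Q122.FM Pool.Agent.Q122.MB

theorem sum_split (N : ℕ) (F : ℕ → ℝ) :
    ∑ m ∈ (Icc 1 N).filter (fun m => Odd m ∧ ¬ IsSquare m), F m +
      ∑ m ∈ (Icc 1 N).filter (fun m => Odd m ∧ IsSquare m), F m =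
    ∑ m ∈ (Icc 1 N).filter (fun m => Odd m), F m := by
  rw [← Finset.sum_filter_add_sum_filter_not ((Icc 1 N).filter (fun m => Odd m))
    (fun m => IsSquare m) F, Finset.filter_filter, Finset.filter_filter, add_comm]

theorem js_mul (e : ℤ) (n b : ℕ) (hn : n ≠ 0) (hb : b ≠ 0) : js e (n * b) = js e n * js e b := by
  unfold js
  rw [jacobiSym.mul_right' e hn hb]
  push_cast
  ring

theorem conv (N B : ℕ) (χ β F : ℕ → ℝ)
    (hχ : ∀ n b : ℕ, n ≠ 0 → b ≠ 0 → χ (n * b) = χ n * χ b) :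
    ∑ m ∈ (Icc 1 (N * B)).filter (fun m => Odd m),
      χ m * ∑ b ∈ (Icc 1 B).filter (fun b => b ∣ m ∧ m / b ≤ N), β b * F (m / b) =
    (∑ b ∈ (Icc 1 B).filter (fun b => Odd b), β b * χ b) *
      ∑ n ∈ (Icc 1 N).filter (fun n => Odd n), χ n * F n := by
  have h1 : ∀ m ∈ (Icc 1 (N * B)).filter (fun m => Odd m),
      χ m * ∑ b ∈ (Icc 1 B).filter (fun b => b ∣ m ∧ m / b ≤ N), β b * F (m / b) =
      ∑ b ∈ (Icc 1 B).filter (fun b => Odd b),
        if b ∣ m ∧ m / b ≤ N then χ m * (β b * F (m / b)) else 0 := by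
    intro m hm
    rw [Finset.mul_sum, ← Finset.sum_filter, Finset.filter_filter]
    apply Finset.sum_congr _ (fun _ _ => rfl)
    ext b
    simp only [mem_filter, mem_Icc] at hm ⊢
    constructor
    · rintro ⟨hb, h1, h2⟩
      exact ⟨hb, Odd.of_dvd_nat hm.2 h1, h1, h2⟩
    · rintro ⟨hb, _, h1, h2⟩
      exact ⟨hb, h1, h2⟩
  rw [Finset.sum_congr rfl h1, Finset.sum_comm, Finset.sum_mul]
  apply Finset.sum_congr rfl
  intro b hb
  simp only [mem_filter, mem_Icc] at hb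
  obtain ⟨⟨hb1, hb2⟩, hbo⟩ := hb
  rw [← Finset.sum_filter, Finset.filter_filter, Finset.mul_sum]
  refine Finset.sum_nbij' (fun m => m / b) (fun n => n * b) ?_ ?_ ?_ ?_ ?_
  · intro m hm
    simp only [mem_filter, mem_Icc] at hm ⊢
    obtain ⟨⟨h1, h2⟩, h3, h4, h5⟩ := hm
    refine ⟨⟨Nat.div_pos (Nat.le_of_dvd (by omega) h4) (by omega), h5⟩, ?_⟩
    exact Odd.of_dvd_nat h3 (Nat.div_dvd_of_dvd h4)
  · intro n hn
    simp only [mem_filter, mem_Icc] at hn ⊢
    obtain ⟨⟨h1, h2⟩, h3⟩ := hn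
    refine ⟨⟨Nat.mul_pos h1 hb1, Nat.mul_le_mul h2 hb2⟩, h3.mul hbo, dvd_mul_left b n, ?_⟩
    rw [Nat.mul_div_cancel n (by omega)]
    exact h2
  · intro m hm
    simp only [mem_filter, mem_Icc] at hm
    exact Nat.div_mul_cancel hm.2.2.1
  · intro n _
    exact Nat.mul_div_cancel n (by omega)
  · intro m hm
    simp only [mem_filter, mem_Icc] at hm
    obtain ⟨⟨h1, h2⟩, h3, h4, h5⟩ := hm
    have h6 : m / b ≠ 0 := (Nat.div_pos (Nat.le_of_dvd (by omega) h4) (by omega)).ne'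
    have h7 : χ m = χ (m / b) * χ b := by
      rw [← hχ (m / b) b h6 (by omega), Nat.div_mul_cancel h4]
    show χ m * (β b * F (m / b)) = β b * χ b * (χ (m / b) * F (m / b))
    rw [h7]
    ring

theorem en_eq (e : ℤ) (a N d : ℕ) (z : ℝ) (hN : 1 ≤ N) :
    EN ⟨e, 8, a, 0⟩ N d z = ∑ n ∈ (Icc 1 N).filter (fun n => Odd n ∧ ¬ IsSquare n),
      js (e * (d : ℤ)) n * (1 / Real.sqrt (n : ℝ) * IG a ((n : ℝ) ^ 2 * z)) := by
  unfold EN
  rw [Finset.sum_eq_single_of_mem 0 (Finset.mem_range.2 (by omega))]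
  · apply Finset.sum_congr rfl
    intro n _
    simp only [pow_zero, one_mul]
    ring
  · intro i _ hi
    apply Finset.sum_eq_zero
    intro n _
    simp only [zero_pow hi, zero_mul, zero_div]

theorem es_eq (e : ℤ) (a N d : ℕ) (z : ℝ) (hN : 1 ≤ N) :
    ES ⟨e, 8, a, 0⟩ N d z = ∑ n ∈ (Icc 1 N).filter (fun n => Odd n ∧ IsSquare n),
      js (e * (d : ℤ)) n * (1 / Real.sqrt (n : ℝ) * IG a ((n : ℝ) ^ 2 * z)) := by
  unfold Pool.Agent.Q122.FM.ES
  rw [Finset.sum_eq_single_of_mem 0 (Finset.mem_range.2 (by omega))]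
  · apply Finset.sum_congr rfl
    intro n _
    simp only [pow_zero, one_mul]
    ring
  · intro i _ hi
    apply Finset.sum_eq_zero
    intro n _
    simp only [zero_pow hi, zero_mul, zero_div]

theorem t_SPL : S_SPL := by
  intro e a β B N d z hN
  rw [en_eq e a N d z hN, es_eq e a N d z hN, sum_split, EBN, EBS, sum_split]
  have h := conv N B (fun n => js (e * (d : ℤ)) n) β
    (fun n => 1 / Real.sqrt (n : ℝ) * IG a ((n : ℝ) ^ 2 * z))
    (fun n b hn hb => js_mul _ n b hn hb)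
  exact h

end Pool.Agent.Q65.MB.SPL
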