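import Pool.Agent.Q122.MB.Stm

set_option autoImplicit false

/-!
Project MB (helper122), job WKC: the coefficients at the squares of squarefree numbers.
-/

namespace Pool.Agent.Q65.MB.WKC

open Finset Filter Topology MeasureTheory Pool.Agent.H306R2.RZ Pool.Agent.H306R2.RG
open Pool.Agent.Q122.FM Pool.Agent.Q122.MB

noncomputable section

/-- the multiplicative function `g` -/
def G : ArithmeticFunction ℝ := ⟨fun n => if n = 0 then 0 else g n, by simp⟩

theorem G_apply (n : ℕ) (hn : n ≠ 0) : G n = g n := if_neg hn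

theorem g_one : g 1 = 1 := by
  unfold g
  simp

theorem g_mul (m n : ℕ) (h : m.Coprime n) : g (m * n) = g m * g n := by
  unfold g
  rw [h.primeFactors_mul, Finset.prod_union h.disjoint_primeFactors]
  have e1 : ∀ p ∈ m.primeFactors, Pool.Agent.Q122.MB.gg ((m * n).factorization p) =
      Pool.Agent.Q122.MB.gg (m.factorization p) := by
    intro p hp
    rw [Nat.factorization_eq_of_coprime_left h (by simpa using hp)]
  have e2 : ∀ p ∈ n.primeFactors, Pool.Agent.Q122.MB.gg ((m * n).factorization p) =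
      Pool.Agent.Q122.MB.gg (n.factorization p) := by
    intro p hp
    rw [Nat.factorization_eq_of_coprime_right h (by simpa using hp)]
  rw [Finset.prod_congr rfl e1, Finset.prod_congr rfl e2]

theorem G_mult : G.IsMultiplicative := by
  refine ⟨?_, ?_⟩
  · rw [G_apply 1 one_ne_zero, g_one]
  · intro m n h
    by_cases hm : m = 0
    · subst hm
      simp
    · by_cases hn : n = 0
      · subst hn
        simp
      · rw [G_apply _ (mul_ne_zero hm hn), G_apply m hm, G_apply n hn, g_mul m n h]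

theorem g_pow (p : ℕ) (hp : p.Prime) (i : ℕ) (hi : i ≠ 0) :
    g (p ^ i) = Pool.Agent.Q122.MB.gg i := by
  unfold g
  rw [Nat.primeFactors_prime_pow hi hp, Finset.prod_singleton, hp.factorization_pow,
    Finsupp.single_eq_same]

theorem G_p (p : ℕ) (hp : p.Prime) : G p = 1 / 2 := by
  rw [G_apply p hp.ne_zero]
  have h := g_pow p hp 1 one_ne_zero
  rw [pow_one] at h
  rw [h]
  simp [Pool.Agent.Q122.MB.gg]

theorem G_p2 (p : ℕ) (hp : p.Prime) : G (p ^ 2) = 3 / 8 := by
  rw [G_apply _ (pow_ne_zero _ hp.ne_zero), g_pow p hp 2 two_ne_zero]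
  simp [Pool.Agent.Q122.MB.gg]

theorem mul_p (u v : ArithmeticFunction ℝ) (p : ℕ) (hp : p.Prime) :
    (u * v) p = u 1 * v p + u p * v 1 := by
  rw [ArithmeticFunction.mul_apply, Nat.sum_divisorsAntidiagonal (fun a b => u a * v b),
    hp.sum_divisors, Nat.div_self hp.pos, Nat.div_one, add_comm]

theorem mul_p2 (u v : ArithmeticFunction ℝ) (p : ℕ) (hp : p.Prime) :
    (u * v) (p ^ 2) = u 1 * v (p ^ 2) + u p * v p + u (p ^ 2) * v 1 := by
  rw [ArithmeticFunction.mul_apply, Nat.sum_divisorsAntidiagonal (fun a b => u a * v b),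
    Nat.divisors_prime_pow hp, Finset.sum_map]
  rw [Finset.sum_range_succ, Finset.sum_range_succ, Finset.sum_range_succ, Finset.sum_range_zero]
  simp only [Function.Embedding.coeFn_mk, pow_zero, pow_one, Nat.div_one, zero_add]
  rw [Nat.div_self (pow_pos hp.pos 2), sq, Nat.mul_div_cancel p hp.pos]

theorem Gj (j p : ℕ) (hp : p.Prime) : (G ^ j) 1 = 1 ∧ (G ^ j) p = j / 2 ∧
    (G ^ j) (p ^ 2) = 3 * j / 8 + j * (j - 1) / 8 := by
  induction j with
  | zero =>
    rw [pow_zero, ArithmeticFunction.one_apply, ArithmeticFunction.one_apply,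
      ArithmeticFunction.one_apply, if_pos rfl, if_neg hp.ne_one,
      if_neg (fun h => hp.ne_one (by simpa using h))]
    norm_num
  | succ j ih =>
    obtain ⟨h1, h2, h3⟩ := ih
    have hG1 : G 1 = 1 := G_mult.1
    rw [pow_succ, ArithmeticFunction.mul_apply_one, mul_p _ _ p hp, mul_p2 _ _ p hp, h1, h2, h3,
      hG1, G_p p hp, G_p2 p hp]
    push_cast
    refine ⟨by ring, by ring, by ring⟩

theorem sqrt_Gp (N0 j b : ℕ) (hb : 1 ≤ b) (hb2 : b ≤ N0) (ho : Odd b) :
    Real.sqrt b * Gp N0 j b = (G ^ j) b := by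
  unfold Gp
  induction j generalizing b with
  | zero =>
    rw [pow_zero, pow_zero, ArithmeticFunction.one_apply]
    by_cases h : b = 1
    · subst h
      simp
    · rw [if_neg h, mul_zero]
  | succ j ih =>
    rw [pow_succ, pow_succ, ArithmeticFunction.mul_apply, ArithmeticFunction.mul_apply,
      Finset.mul_sum]
    apply Finset.sum_congr rfl
    intro x hx
    rw [Nat.mem_divisorsAntidiagonal] at hx
    obtain ⟨hx1, hx2⟩ := hx
    have d1 : x.1 ∣ b := ⟨x.2, hx1.symm⟩
    have d2 : x.2 ∣ b := ⟨x.1, by rw [mul_comm]; exact hx1.symm⟩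
    have p1 : 0 < x.1 := Nat.pos_of_dvd_of_pos d1 hb
    have p2 : 0 < x.2 := Nat.pos_of_dvd_of_pos d2 hb
    have l1 : x.1 ≤ N0 := (Nat.le_of_dvd hb d1).trans hb2
    have l2 : x.2 ≤ N0 := (Nat.le_of_dvd hb d2).trans hb2
    have o1 : Odd x.1 := Odd.of_dvd_nat ho d1
    have o2 : Odd x.2 := Odd.of_dvd_nat ho d2
    rw [← ih x.1 p1 l1 o1, G_apply x.2 p2.ne']
    have hGN : GN N0 x.2 = g x.2 / Real.sqrt x.2 := if_pos ⟨p2, l2, o2⟩
    have hs : Real.sqrt (b : ℝ) = Real.sqrt x.1 * Real.sqrt x.2 := by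
      rw [← Real.sqrt_mul (Nat.cast_nonneg _), ← hx1]
      push_cast
      rfl
    have hs2 : Real.sqrt (x.2 : ℝ) ≠ 0 := by
      rw [Real.sqrt_ne_zero']
      exact_mod_cast p2
    rw [hGN, hs]
    field_simp

theorem t_WKC : S_WKC := by
  intro k hk N0 m hsq hodd hm
  have hm0 : m ≠ 0 := hsq.ne_zero
  have hm1 : 1 ≤ m ^ 2 := Nat.one_le_iff_ne_zero.2 (pow_ne_zero _ hm0)
  have h1 : ∀ b ∈ (m ^ 2).divisors, Real.sqrt b * Gp N0 (2 * k - 2) b = (G ^ (2 * k - 2)) b := by
    intro b hb
    have hd := Nat.dvd_of_mem_divisors hb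
    exact sqrt_Gp N0 _ b (Nat.pos_of_dvd_of_pos hd hm1) ((Nat.le_of_dvd hm1 hd).trans hm)
      (Odd.of_dvd_nat (hodd.pow) hd)
  rw [Finset.sum_congr rfl h1, ← ArithmeticFunction.coe_mul_zeta_apply]
  have hmul : (G ^ (2 * k - 2) *
      ((ArithmeticFunction.zeta : ArithmeticFunction ℕ) : ArithmeticFunction ℝ)).IsMultiplicative :=
    (G_mult.pow).mul ArithmeticFunction.isMultiplicative_zeta.natCast
  rw [hmul.multiplicative_factorization _ (pow_ne_zero 2 hm0)]
  have h2 : ∀ p ∈ m.primeFactors, (G ^ (2 * k - 2) *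
      ((ArithmeticFunction.zeta : ArithmeticFunction ℕ) : ArithmeticFunction ℝ))
        (p ^ (m ^ 2).factorization p) = ((k * (k + 1) / 2 : ℕ) : ℝ) := by
    intro p hp
    have hpp := Nat.prime_of_mem_primeFactors hp
    have hf : (m ^ 2).factorization p = 2 := by
      rw [Nat.factorization_pow]
      have h3 : m.factorization p = 1 :=
        Nat.le_antisymm (hsq.natFactorization_le_one p)
          ((hpp.dvd_iff_one_le_factorization hm0).1 (Nat.dvd_of_mem_primeFactors hp))
      simp [h3]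
    rw [hf, ArithmeticFunction.coe_mul_zeta_apply, Nat.divisors_prime_pow hpp, Finset.sum_map,
      Finset.sum_range_succ, Finset.sum_range_succ, Finset.sum_range_succ, Finset.sum_range_zero]
    simp only [Function.Embedding.coeFn_mk, pow_zero, pow_one, zero_add]
    obtain ⟨h4, h5, h6⟩ := Gj (2 * k - 2) p hpp
    rw [h4, h5, h6]
    obtain ⟨k', rfl⟩ : ∃ k', k = k' + 1 := ⟨k - 1, by omega⟩
    rw [show 2 * (k' + 1) - 2 = 2 * k' by omega,
      Nat.cast_div (Nat.even_mul_succ_self (k' + 1)).two_dvd (by norm_num)]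
    push_cast
    ring
  rw [Finsupp.prod, Nat.support_factorization, Nat.primeFactors_pow m two_ne_zero,
    Finset.prod_congr rfl h2, Finset.prod_const]

end

end Pool.Agent.Q65.MB.WKC
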